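import Pool.Agent.W188.QS.Stm

set_option autoImplicit false

open Complex MeasureTheory Set Filter Topology

namespace Pool.Agent.W32.QS
open Pool.Agent.W188.QS

/-- the divisor function -/
noncomputable abbrev dd (j : ℕ) : ArithmeticFunction ℕ := ArithmeticFunction.zeta ^ j

lemma sum_dd (j : ℕ) : ∀ N : ℕ, 1 ≤ N →
    ∑ n ∈ Finset.Ioc 0 N, ((dd (j + 1) n : ℕ) : ℝ) ≤ N * (1 + Real.log N) ^ j := by
  induction j with
  | zero =>
    intro N hN
    have h := ArithmeticFunction.sum_Ioc_zeta N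
    have h2 : ∑ n ∈ Finset.Ioc 0 N, ((dd (0 + 1) n : ℕ) : ℝ) = N := by
      rw [← Nat.cast_sum]
      simp only [dd, zero_add, pow_one]
      rw [h]
    rw [h2]; simp
  | succ j ih =>
    intro N hN
    have hN0 : (1 : ℝ) ≤ N := by exact_mod_cast hN
    have hlog : 0 ≤ Real.log N := Real.log_nonneg hN0
    have h1 : ∑ n ∈ Finset.Ioc 0 N, ((dd (j + 1 + 1) n : ℕ) : ℝ) =
        ∑ n ∈ Finset.Ioc 0 N, ((ArithmeticFunction.zeta n : ℕ) : ℝ) *
          ∑ m ∈ Finset.Ioc 0 (N / n), ((dd (j + 1) m : ℕ) : ℝ) := by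
      have := ArithmeticFunction.sum_Ioc_mul_eq_sum_sum ArithmeticFunction.zeta (dd (j + 1)) N
      have h3 : dd (j + 1 + 1) = ArithmeticFunction.zeta * dd (j + 1) := pow_succ' _ _
      rw [h3]
      exact_mod_cast congrArg (fun k : ℕ => (k : ℝ)) this
    rw [h1]
    have h2 : ∀ n ∈ Finset.Ioc 0 N, ((ArithmeticFunction.zeta n : ℕ) : ℝ) *
          ∑ m ∈ Finset.Ioc 0 (N / n), ((dd (j + 1) m : ℕ) : ℝ) ≤
          (N * (1 + Real.log N) ^ j) * ((n : ℝ)⁻¹) := by
      intro n hn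
      rw [Finset.mem_Ioc] at hn
      have hn0 : (0 : ℝ) < n := by exact_mod_cast hn.1
      have hz : (ArithmeticFunction.zeta n : ℕ) = 1 := by
        rw [ArithmeticFunction.zeta_apply]; simp; omega
      rw [hz, Nat.cast_one, one_mul]
      have hq : 1 ≤ N / n := Nat.div_pos hn.2 hn.1
      have hq1 : ((N / n : ℕ) : ℝ) ≤ N / n := Nat.cast_div_le
      have hq2 : ((N / n : ℕ) : ℝ) ≤ N := by exact_mod_cast Nat.div_le_self N n
      have hq3 : (1 : ℝ) ≤ ((N / n : ℕ) : ℝ) := by exact_mod_cast hq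
      refine (ih (N / n) hq).trans ?_
      have hl1 : Real.log ((N / n : ℕ) : ℝ) ≤ Real.log N := Real.log_le_log (by linarith) hq2
      have hl0 : 0 ≤ Real.log ((N / n : ℕ) : ℝ) := Real.log_nonneg hq3
      have hp : (1 + Real.log ((N / n : ℕ) : ℝ)) ^ j ≤ (1 + Real.log N) ^ j :=
        pow_le_pow_left₀ (by linarith) (by linarith) j
      calc ((N / n : ℕ) : ℝ) * (1 + Real.log ((N / n : ℕ) : ℝ)) ^ j
          ≤ ((N : ℝ) / n) * (1 + Real.log N) ^ j :=
            mul_le_mul hq1 hp (pow_nonneg (by linarith) j) (by positivity)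
        _ = (N * (1 + Real.log N) ^ j) * ((n : ℝ)⁻¹) := by ring
    refine (Finset.sum_le_sum h2).trans ?_
    rw [← Finset.mul_sum]
    have h4 : ∑ n ∈ Finset.Ioc 0 N, ((n : ℝ)⁻¹) ≤ 1 + Real.log N := by
      have := harmonic_le_one_add_log N
      rw [harmonic_eq_sum_Icc] at this
      push_cast at this
      exact this
    calc (N * (1 + Real.log N) ^ j) * ∑ n ∈ Finset.Ioc 0 N, ((n : ℝ)⁻¹)
        ≤ (N * (1 + Real.log N) ^ j) * (1 + Real.log N) :=
          mul_le_mul_of_nonneg_left h4 (by positivity)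
      _ = N * (1 + Real.log N) ^ (j + 1) := by ring

lemma summ (j : ℕ) (s : ℂ) (hs : 1 < s.re) :
    LSeriesSummable (fun n => ((dd (j + 1) n : ℕ) : ℂ)) s ∧
      LSeries (fun n => ((dd (j + 1) n : ℕ) : ℂ)) s = riemannZeta s ^ (j + 1) := by
  induction j with
  | zero =>
    have h1 := ArithmeticFunction.LSeriesSummable_zeta_iff.mpr hs
    have h2 := ArithmeticFunction.LSeries_zeta_eq_riemannZeta hs
    refine ⟨?_, ?_⟩
    · simpa only [dd, zero_add, pow_one] using h1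
    · simpa only [dd, zero_add, pow_one] using h2
  | succ j ih =>
    have h1 := ArithmeticFunction.LSeriesSummable_zeta_iff.mpr hs
    have h2 := ArithmeticFunction.LSeries_zeta_eq_riemannZeta hs
    have hc : (fun n => ((dd (j + 1 + 1) n : ℕ) : ℂ)) =
        fun n => (((dd (j + 1) : ArithmeticFunction ℂ) *
          (ArithmeticFunction.zeta : ArithmeticFunction ℂ)) n : ℂ) := by
      funext n
      rw [← ArithmeticFunction.natCoe_mul, ArithmeticFunction.natCoe_apply]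
      rw [show dd (j + 1 + 1) = dd (j + 1) * ArithmeticFunction.zeta from pow_succ _ _]
    rw [hc]
    have e1 : (fun n => ((dd (j + 1) : ArithmeticFunction ℂ) n : ℂ)) =
        (fun n => ((dd (j + 1) n : ℕ) : ℂ)) := by
      funext n; rw [ArithmeticFunction.natCoe_apply]
    have e2 : (fun n => ((ArithmeticFunction.zeta : ArithmeticFunction ℂ) n : ℂ)) =
        (fun n => ((ArithmeticFunction.zeta n : ℕ) : ℂ)) := by
      funext n; rw [ArithmeticFunction.natCoe_apply]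
    refine ⟨ArithmeticFunction.LSeriesSummable_mul (by rw [e1]; exact ih.1)
      (by rw [e2]; exact h1), ?_⟩
    rw [ArithmeticFunction.LSeries_mul' (by rw [e1]; exact ih.1) (by rw [e2]; exact h1), e1, e2,
      ih.2, h2, pow_succ _ (j + 1)]

theorem qs_div : StDiv := by
  intro j hj
  obtain ⟨i, rfl⟩ : ∃ i, j = i + 1 := ⟨j - 1, by omega⟩
  have hlow : ∀ n : ℕ, 1 ≤ n → ((dd (i + 1) n : ℕ) : ℝ) ≤ (Nat.factorial i * Real.exp 1) * (n : ℝ) ^ 2 := by
    intro n hn
    have hn1 : (1 : ℝ) ≤ n := by exact_mod_cast hn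
    have h1 : ((dd (i + 1) n : ℕ) : ℝ) ≤ ∑ m ∈ Finset.Ioc 0 n, ((dd (i + 1) m : ℕ) : ℝ) :=
      Finset.single_le_sum (f := fun m => ((dd (i + 1) m : ℕ) : ℝ)) (fun m _ => Nat.cast_nonneg _)
        (Finset.mem_Ioc.mpr ⟨hn, le_refl n⟩)
    have h2 := sum_dd i n hn
    have hl0 : 0 ≤ Real.log n := Real.log_nonneg hn1
    have h3 := Real.pow_div_factorial_le_exp (1 + Real.log n) (by linarith) i
    have hf : (0 : ℝ) < Nat.factorial i := by exact_mod_cast Nat.factorial_pos i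
    rw [div_le_iff₀ hf, Real.exp_add, Real.exp_log (by linarith)] at h3
    have h4 := mul_le_mul_of_nonneg_left h3 (by linarith : (0 : ℝ) ≤ n)
    calc ((dd (i + 1) n : ℕ) : ℝ) ≤ n * (1 + Real.log n) ^ i := h1.trans h2
      _ ≤ n * (Real.exp 1 * n * Nat.factorial i) := h4
      _ = _ := by ring
  have hf : (0 : ℝ) < Nat.factorial i := by exact_mod_cast Nat.factorial_pos i
  refine ⟨max (3 ^ i) (Nat.factorial i * Real.exp 1), lt_of_lt_of_le (by positivity) (le_max_left _ _),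
    ?_, ?_, ?_⟩
  · intro x hx
    have hx0 : (0 : ℝ) < x := by linarith
    have hfl : 1 ≤ ⌊x⌋₊ := Nat.le_floor (by push_cast; linarith)
    have hflx : ((⌊x⌋₊ : ℕ) : ℝ) ≤ x := Nat.floor_le hx0.le
    have hfl1 : (1 : ℝ) ≤ ((⌊x⌋₊ : ℕ) : ℝ) := by exact_mod_cast hfl
    have h1 := sum_dd i ⌊x⌋₊ hfl
    have hlog2 : (1 : ℝ) / 2 ≤ Real.log x := by
      have := Real.log_two_gt_d9
      have h3 : Real.log 2 ≤ Real.log x := Real.log_le_log (by norm_num) hx
      linarith
    have hl0 : 0 ≤ Real.log ((⌊x⌋₊ : ℕ) : ℝ) := Real.log_nonneg hfl1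
    have hl1 : Real.log ((⌊x⌋₊ : ℕ) : ℝ) ≤ Real.log x := Real.log_le_log (by linarith) hflx
    have h5 : (1 + Real.log ((⌊x⌋₊ : ℕ) : ℝ)) ^ i ≤ (3 * Real.log x) ^ i :=
      pow_le_pow_left₀ (by linarith) (by linarith) i
    have h6 : ∑ n ∈ Finset.Icc 1 ⌊x⌋₊, ((dd (i + 1) n : ℕ) : ℝ) ≤ x * (3 * Real.log x) ^ i :=
      h1.trans (mul_le_mul hflx h5 (pow_nonneg (by linarith) i) hx0.le)
    refine h6.trans ?_
    rw [mul_pow]
    have h7 : (3 : ℝ) ^ i ≤ max (3 ^ i) (Nat.factorial i * Real.exp 1) := le_max_left _ _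
    have h8 : 0 ≤ x * Real.log x ^ i := mul_nonneg hx0.le (pow_nonneg (by linarith) i)
    have h9 := mul_le_mul_of_nonneg_right h7 h8
    simp only [Nat.add_sub_cancel]
    calc x * (3 ^ i * Real.log x ^ i) = 3 ^ i * (x * Real.log x ^ i) := by ring
      _ ≤ _ := h9
      _ = _ := by ring
  · intro n
    rcases Nat.eq_zero_or_pos n with h0 | hn
    · subst h0
      simp
    · refine (hlow n hn).trans ?_
      exact mul_le_mul_of_nonneg_right (le_max_right _ _) (by positivity)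
  · intro s hs
    obtain ⟨h1, h2⟩ := summ i s hs
    refine ⟨h1, ?_⟩
    rw [← h2, LSeries]
    refine tsum_congr fun n => ?_
    rcases Nat.eq_zero_or_pos n with h0 | hn
    · subst h0
      simp
    · rw [LSeries.term_of_ne_zero (by omega), Complex.cpow_neg, div_eq_mul_inv]

end Pool.Agent.W32.QS
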